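import Mathlib
import Pool.Agent.Q156.DM.MSums
import Pool.Agent.Q156.DM.JSums

/-!
# A graph that is not distance-regular with the distance spectrum of a distance-regular graph

The graph is the Cartesian product of `K₄` and the halved 12-cube (8192 vertices) from which 184
vertices are deleted, and the distance-regular graph is the Johnson graph `J(16, 6)` with 8008
vertices.

Idea. Both distance matrices have the form `4 J - (1/4) Σᵀ Σ` where `Σ` is a matrix of signs with 16
rows of squared length 8008 that are pairwise orthogonal. For the 6-subsets of a 16-set the rows are
the (signed) incidence vectors; for the product the rows are the all-ones vector, the three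
characters of `K₄` and the 12 coordinates of the cube. The 184 deleted vertices form an orthogonal
array of strength two (built from Hadamard matrices of order 20 and 12), and they are spread in such
a way that all distances between the remaining vertices stay the same. In the product two vertices
at distance two have two or six (or, near the deleted vertices, fewer) common neighbours, so the
graph is not distance-regular.
-/

set_option autoImplicit false

namespace Pool.Agent.Results.MP_08245e_co.JohnsonMate

open Q156.DM

/-- **There is a connected graph on 8008 vertices that is not distance-regular and has the same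
distance spectrum as the distance-regular Johnson graph `J(16, 6)`.** -/
theorem result :
    ∃ (V : Type) (_ : Fintype V) (_ : DecidableEq V) (G : SimpleGraph V),
      Fintype.card V = 8008 ∧ G.Connected ∧ ¬ IsDistanceRegular G ∧
      (johnson 16 6).Connected ∧ IsDistanceRegular (johnson 16 6) ∧
      (distMatrix G).charpoly = (distMatrix (johnson 16 6)).charpoly ∧
      distSpectrum G = distSpectrum (johnson 16 6) := by
  have hJ : IsDistanceRegular (johnson 16 6) := johnson_dr (by norm_num)
  have hne : Nonempty V1 := ⟨vy⟩
  have hmain : (distMatrix mate).charpoly = (distMatrix (johnson 16 6)).charpoly := by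
    refine cospectral (V := V1) (W := W6) (ι := Fin 4 ⊕ Fin 12) (κ := Fin 16) ?_ ?_ 8008
      (by norm_num) ?_ 4 (1 / 4) (fun v i => ((sv v.1 i : ℤ) : ℝ)) τ ?_ gram
      (fun i => if i = Sum.inl 0 then 8008 else 0) ?_ ?_ (fun _ => 2002) col_sum ?_ _ _ ?_ ?_
    · rw [card_V1, card_W6]
    · simp
    · rw [card_V1]
      norm_num
    · intro i j
      have := gramZ i j
      have h2 : ((∑ v : V1, sv v.1 i * sv v.1 j : ℤ) : ℝ) = ((if i = j then 8008 else 0 : ℤ) : ℝ) :=
        by rw [this]
      push_cast at h2
      exact h2
    · intro i
      have := colZ i
      have h2 : ((∑ v : V1, sv v.1 i : ℤ) : ℝ)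
          = ((if i = Sum.inl 0 then 8008 else 0 : ℤ) : ℝ) := by rw [this]
      push_cast at h2
      exact h2
    · intro v
      rw [Finset.sum_eq_single (Sum.inl 0)]
      · simp [sv, K]
      · intro i _ hi
        rw [if_neg hi, zero_mul]
      · simp
    · intro S
      rw [← Finset.mul_sum, τ_row]
      norm_num
    · intro u v
      have h := dotZ u v
      have h2 : ((∑ i, sv u.1 i * sv v.1 i : ℤ) : ℝ)
          = ((16 - 4 * (mate.dist u v : ℤ) : ℤ) : ℝ) := by rw [h]
      push_cast at h2
      rw [h2]
      simp only [distMatrix, Matrix.of_apply]
      ring
    · intro S T
      simp only [distMatrix, Matrix.of_apply]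
      exact τ_dist S T
  refine ⟨V1, inferInstance, inferInstance, mate, card_V1, ?_, mate_not_dr, hJ.1, hJ, hmain, ?_⟩
  · exact { preconnected := fun u v => mdist.1 u v }
  · unfold distSpectrum
    rw [hmain]

end Pool.Agent.Results.MP_08245e_co.JohnsonMate
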